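import Pool.Agent.Helper68.Kak.PlaneEnt
import Pool.Agent.Helper75.KakHB
import Pool.Agent.Helper6.Kak.HDefs

set_option autoImplicit false

/-!
# The plane lemma in the form used by the base case
-/

namespace Pool.Agent.Helper68.Kak

open Pool.Agent.Helper8.Kak Pool.Agent.Helper6.Kak

theorem half_pow_JJ {δ : ℝ} (hδ : 0 < δ) : (1 / 2 : ℝ) ^ JJ δ ≤ δ := by
  have h1 : Real.logb 2 (1 / δ) ≤ (JJ δ : ℝ) := Nat.le_ceil _
  have h2 : 1 / δ ≤ 2 ^ (JJ δ : ℝ) := by
    rw [← Real.logb_le_iff_le_rpow (by norm_num) (by positivity)]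
    exact h1
  rw [Real.rpow_natCast] at h2
  rw [one_div_pow, one_div_le (by positivity) hδ]
  exact h2

theorem planeLem (m : ℕ) : Pool.Agent.Helper75.KakHB.PlaneLem m := by
  refine ⟨21 * m + 5, by positivity, ?_⟩
  intro M G Ω _ p hp K l0 l1 T0 R k hP hk _ ht ha
  have hM : (0 : ℝ) < M := M_pos' G
  have hM1 : (1 : ℝ) ≤ M := by
    have : 0 < M := by exact_mod_cast hM
    exact_mod_cast this
  have h := plane_ent G hp K k l0 l1 T0 R hk (fun ω h0 => (hP ω h0).symm)
    (fun ω h0 i => by rw [abs_sub_comm]; exact ht ω h0 i)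
    (fun ω h0 => by
      rcases ha ω h0 with h1 | ⟨i, h1⟩
      · left
        rw [h1]
        exact half_pow_JJ G.hδ
      · right
        exact ⟨i, by rw [abs_sub_comm]; exact h1⟩)
  refine h.trans ?_
  set D := Real.log M - CE p (Setoid.ker R) (K ⊓ Setoid.ker l0 ⊓ Setoid.ker l1 ⊓
            Setoid.ker T0) with hD
  have hD0 : 0 ≤ D := by
    have := Ent_height_le hp (K ⊓ Setoid.ker l0 ⊓ Setoid.ker l1 ⊓ Setoid.ker T0) R
    rw [hD]
    unfold CE
    linarith
  have hell : 1 ≤ ell M := by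
    unfold ell
    have h0 : 0 ≤ Real.log M := Real.log_nonneg hM1
    rw [← Real.log_exp 1]
    refine Real.log_le_log (Real.exp_pos _) ?_
    have := Real.exp_one_lt_d9
    linarith
  have hm : (0 : ℝ) ≤ m := Nat.cast_nonneg m
  have e : Real.log (Real.log M + 3) = ell M := rfl
  rw [e]
  nlinarith [mul_nonneg hm hD0, mul_le_mul_of_nonneg_left hell hm]

theorem planeS (m : ℕ) : PlaneS m := by
  refine ⟨21 * m + 5, by positivity, ?_⟩
  intro M G Ω _ p hp K l0 l1 T R k κ hk _ hP ht ha hR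
  have hM : (0 : ℝ) < M := M_pos' G
  have hM1 : (1 : ℝ) ≤ M := by
    have : 0 < M := by exact_mod_cast hM
    exact_mod_cast this
  have h := plane_ent G hp K k l0 l1 T R hk hP ht
    (fun ω h0 => by
      rcases ha ω h0 with h1 | h1
      · left
        rw [h1]
        exact half_pow_JJ G.hδ
      · right
        exact h1)
  refine h.trans ?_
  set D := Real.log M - CE p (Setoid.ker R) (K ⊓ Setoid.ker l0 ⊓ Setoid.ker l1 ⊓
            Setoid.ker T) with hD
  have hD0 : 0 ≤ D := by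
    have := Ent_height_le hp (K ⊓ Setoid.ker l0 ⊓ Setoid.ker l1 ⊓ Setoid.ker T) R
    rw [hD]
    unfold CE
    linarith
  have hDκ : D ≤ κ := by linarith
  have hell : 1 ≤ ell M := by
    unfold ell
    have h0 : 0 ≤ Real.log M := Real.log_nonneg hM1
    rw [← Real.log_exp 1]
    refine Real.log_le_log (Real.exp_pos _) ?_
    have := Real.exp_one_lt_d9
    linarith
  have hm : (0 : ℝ) ≤ m := Nat.cast_nonneg m
  have e : Real.log (Real.log M + 3) = ell M := rfl
  rw [e]
  nlinarith [mul_nonneg hm hD0, mul_le_mul_of_nonneg_left hell hm,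
    mul_le_mul_of_nonneg_left hDκ hm]

end Pool.Agent.Helper68.Kak
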