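import Pool.Agent.Helper6.Kak.HDefs

set_option autoImplicit false

/-!
# Kakeya hybrid: the inequality (1a)
-/

namespace Pool.Agent.Helper68.Kak

open Pool.Agent.Helper8.Kak Pool.Agent.Helper6.Kak Pool.Agent.Helper6.Kak.Hy
open Pool.Agent.Helper6.Kak.VH

section

variable {Ω : Type} [Fintype Ω] {p : Ω → ℝ} {V : VH → Setoid Ω}
  {eK eL eB eT eP eB2 LM Lam kk A D Dz β c C N : ℝ}

theorem inc (h : Base p V eK eL eB eT eP eB2 LM Lam) (X X' Y Y' : Finset VH)
    (hY' : Y' ⊆ cl rules (X' ∪ Y)) (hX : X ⊆ cl rules X' ∩ cl rules Y) :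
    HH p V Y' - HH p V Y ≤ HH p V X' - HH p V X :=
  HH_INC h.hp h.hr X X' Y Y' hY' hX

theorem mn (h : Base p V eK eL eB eT eP eB2 LM Lam) (X Y : Finset VH)
    (hX : X ⊆ cl rules Y) : HH p V X ≤ HH p V Y :=
  HH_MN h.hp h.hr X Y hX

/-- the intersection height `T1` is free given the first pair -/
theorem lowT1 (h : Base p V eK eL eB eT eP eB2 LM Lam) :
    eB2 + (eB - eL) ≤ HH p V {K, l0, l1, T0, T1} := by
  have i1 := inc h {K, l0, T1} {K, l0, l2, T1} {K, l0, l1, T0, T1} {K, l0, l1, T0, T1, l2}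
    (by decide +kernel) (by decide +kernel)
  have i2 := inc h {K, l0} {K, l0, S} {K, l0, l1, T0, T1, l2} {K, l0, l1, T0, T1, l2, S}
    (by decide +kernel) (by decide +kernel)
  have i3 := inc h {K, l1} {K, l1, R} {K, l0, l1, T0, T1, l2, S} {K, l0, l1, T0, T1, l2, S, R}
    (by decide +kernel) (by decide +kernel)
  have i4 := inc h {K, l2} {K, l2, b} {K, l0, l1, T0, T1, l2, S, R}
    {K, l0, l1, T0, T1, l2, S, R, b} (by decide +kernel) (by decide +kernel)
  have i5 := inc h {K, l2} {K, l2, b'} {K, l0, l1, T0, T1, l2, S, R, b}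
    {K, l0, l1, l2, T0, T1, S, R, b, b'} (by decide +kernel) (by decide +kernel)
  linarith [h.tot, h.h021, h.h01, h.h0S, h.hL0, h.h1R, h.hL1, h.h2b, h.hL2, h.h2b']

/-- lower bound for the pair `(l0 , w)` -/
theorem lowX1 (h : Hyp p V eK eL eB eT eP eB2 LM Lam kk A D Dz)
    (j3 : LM - N * kk ≤ HH p V {K, l0, l1, l2, T0, T1, b, b', S, tw}
      - HH p V {K, l0, l1, l2, T0, T1, b, b', S}) :
    (eL - eK) + ((eL - eK) - (eP - eT)) + 2 * A
      - (HH p V {K, l0, l1, w, tw} - HH p V {K, w, tw, l0}) - (N + 7) * kk ≤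
      HH p V {K, w, tw, l0} - HH p V {K, tw} := by
  have hb := h.toBase
  have i1 := inc hb {K, l0, l1, T0, T1} {K, l0, l1, T0, T1, tw}
    {K, l0, l1, l2, T0, T1, b, b', S} {K, l0, l1, l2, T0, T1, b, b', S, tw}
    (by decide +kernel) (by decide +kernel)
  have i2 := inc hb {K, l0, l1} {K, l0, l1, T0} {K, l0, l1, w, tw, T1}
    {K, l0, l1, w, tw, T1, T0} (by decide +kernel) (by decide +kernel)
  have i3 := mn hb {K, l0, l1, T0, T1, tw} {K, l0, l1, w, tw, T1, T0} (by decide +kernel)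
  have hT1 := lowT1 hb
  have hTM := h.eTM
  have hκ := h.hκ
  have hι := h.hι
  have c2 := h.c2
  have c3 := h.c3
  have c4 := h.c4
  rw [h.hK] at c2
  linarith

/-- upper bound for the pair `(PS , w)` -/
theorem upX3 (h : Hyp p V eK eL eB eT eP eB2 LM Lam kk A D Dz)
    (j1 : LM - N * kk ≤ HH p V {K, l0, l1, T0, T1, tw, S} - HH p V {K, l0, l1, T0, T1, tw})
    (j2 : LM - N * kk ≤ HH p V {K, l0, l1, T0, S, tw, R} - HH p V {K, l0, l1, T0, S, tw}) :
    HH p V {K, w, tw, S, PS} - HH p V {K, tw, S} ≤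
      Lam + A - (HH p V {K, l0, l1, w, tw} - HH p V {K, w, tw, l0}) + (2 * N + 4) * kk := by
  have hb := h.toBase
  -- upper bound of the whole family
  have a1 := inc hb {K, S, R} {K, S, R, PS, PR} {K, S, R, tw} {K, S, R, tw, PS, PR}
    (by decide +kernel) (by decide +kernel)
  have a2 := inc hb {PS, PR, S, R, tw} {PS, PR, S, R, tw, w} {K, S, R, tw, PS, PR}
    {K, S, R, tw, PS, PR, w} (by decide +kernel) (by decide +kernel)
  have a3 := inc hb {K} {K, R} {K, tw, S} {K, S, R, tw} (by decide +kernel) (by decide +kernel)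
  have a4 := mn hb {K, w, tw, S, PS, R} {K, S, R, tw, PS, PR, w} (by decide +kernel)
  have a5 := inc hb {K, w, tw, S, PS} {K, w, tw, S, PS, R} {K, l0, w, tw, S}
    {K, l0, w, tw, S, R} (by decide +kernel) (by decide +kernel)
  -- lower bound for R given l0, w, tw, S
  have a6 := inc hb {PS, w, S, R, tw} {PS, w, S, R, tw, PR} {K, l0, w, tw, S, R}
    {K, l0, w, tw, S, R, PR} (by decide +kernel) (by decide +kernel)
  have a7 := inc hb {K, l0, R, PR} {K, l0, R, PR, l1} {K, l0, w, tw, S, R, PR}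
    {K, l0, w, tw, S, R, PR, l1} (by decide +kernel) (by decide +kernel)
  have a8 := mn hb {K, l0, l1, tw, S, R} {K, l0, w, tw, S, R, PR, l1} (by decide +kernel)
  have a9 := inc hb {K, l0, l1, tw, S} {K, l0, l1, tw, S, R} {K, l0, l1, T0, S, tw}
    {K, l0, l1, T0, S, tw, R} (by decide +kernel) (by decide +kernel)
  have a10 := inc hb {K, l0, l1, tw} {K, l0, l1, tw, w} {K, l0, l1, tw, S}
    {K, l0, l1, w, tw, S} (by decide +kernel) (by decide +kernel)
  have a11 := inc hb {K, l0, l1, w, tw} {K, l0, l1, w, tw, S} {K, l0, l1, T0, T1, tw}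
    {K, l0, l1, T0, T1, tw, S} (by decide +kernel) (by decide +kernel)
  have a12 := inc hb {K} {K, S} {K, w, tw, l0} {K, l0, w, tw, S}
    (by decide +kernel) (by decide +kernel)
  linarith [h.lam1, h.c5, h.hTR, h.hTS, h.hK, h.eTM, h.c6, h.c7, h.c8]

end

theorem fact1a (hJ : FactJ) : Fact1a := by
  obtain ⟨N, hN, H⟩ := hJ
  refine ⟨7 * N + 15, by linarith, ?_⟩
  intro Ω _ p V eK eL eB eT eP eB2 LM Lam kk A D Dz β c C h hI hβ1 hβ2 hc0 hc1 hC
  obtain ⟨j1, j2, j3, -, -, -, -⟩ := H p V eK eL eB eT eP eB2 LM Lam kk h.toPar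
  have hb := h.toBase
  have hkk := h.kk0
  have x1 := lowX1 h j3
  have x3 := upX3 h j1 j2
  -- near uniformity of S given w, tw
  have s1 := inc hb {K, w, tw} {K, w, tw, S} {K, l0, l1, T0, T1, tw}
    {K, l0, l1, T0, T1, tw, S} (by decide +kernel) (by decide +kernel)
  have s2 := inc hb {K} {K, S} {K, tw} {K, tw, S} (by decide +kernel) (by decide +kernel)
  have s3 := inc hb {K, w, tw, l0} {K, w, tw, l0, S} {K, l0, l1, T0, T1, tw}
    {K, l0, l1, T0, T1, tw, S} (by decide +kernel) (by decide +kernel)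
  -- the tube
  have q1 := inc hb {K, tw} {K, w, tw} {K, tw, kq} {K, w, tw, kq}
    (by decide +kernel) (by decide +kernel)
  have q2 := mn hb {K, tw, w, kq, Q} {K, w, tw, kq, Q} (by decide +kernel)
  have lam0 := mn hb {K, w, tw, l0} {K, l0, l1, w, tw} (by decide +kernel)
  have hTM := h.eTM
  have hTS := h.hTS
  have hK := h.hK
  unfold IHw at hI
  set H1 := HH p V {K, w, tw, l0}
  set H2 := HH p V {K, w, tw}
  set H3 := HH p V {K, w, tw, kq, Q}
  set H4 := HH p V {K, w, tw, kq}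
  set H5 := HH p V {K, w, tw, S, PS}
  set H6 := HH p V {K, w, tw, S}
  set H7 := HH p V {K, w, tw, l0, S}
  set H8 := HH p V {K, tw, w, kq, Q}
  set H9 := HH p V {K, tw, kq}
  set H10 := HH p V {K, tw}
  set H11 := HH p V {K, tw, S}
  set H12 := HH p V {K, l0, l1, w, tw}
  have e1 : C * (LM - (H7 - H1) + kk) ≤ C * ((N + 1) * kk) :=
    mul_le_mul_of_nonneg_left (by linarith) hC
  have e2 : (β - 1) * (H8 - H9) ≤ (β - 1) * ((H3 - H4) + (H2 - H10)) :=
    mul_le_mul_of_nonneg_left (by linarith) (by linarith)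
  have e3 : β * (H5 - H6) ≤ β * (Lam + A - (H12 - H1) + (2 * N + 4) * kk - (H2 - H10) + N * kk) :=
    mul_le_mul_of_nonneg_left (by linarith) (by linarith)
  have e4 : 0 ≤ (β - 1) * (H12 - H1) := mul_nonneg (by linarith) (by linarith)
  have e5 : β * ((3 * N + 4) * kk) ≤ 2 * ((3 * N + 4) * kk) :=
    mul_le_mul_of_nonneg_right hβ2 (by positivity)
  have e6 : 0 ≤ C * N * kk := by positivity
  have e7 : 0 ≤ C * kk := by positivity
  nlinarith

end Pool.Agent.Helper68.Kak
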