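import Pool.Agent.Helper90.Kak.HBase
import Pool.Agent.Helper68.Kak.Fact1a

set_option autoImplicit false

/-!
# Kakeya hybrid: the plane costs `c7` and `d2` on the glued space
-/

namespace Pool.Agent.Helper68.Kak

open Pool.Agent.Helper8.Kak Pool.Agent.Helper6.Kak Pool.Agent.Helper6.Kak.Hy
open Pool.Agent.Helper6.Kak.VH Pool.Agent.Helper90.Kak

section

variable {Ω : Type} [Fintype Ω] {p : Ω → ℝ} {V : VH → Setoid Ω}
  {eK eL eB eT eP eB2 LM Lam : ℝ}

/-- the height `R` is free given the first pair -/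
theorem lowR (h : Base p V eK eL eB eT eP eB2 LM Lam) :
    eB2 + (eB - eL) ≤ HH p V {K, l0, l1, T0, R} := by
  have i0 := inc h {K, l0} {K, l0, T1} {K, l0, l1, T0, R} {K, l0, l1, T0, R, T1}
    (by decide +kernel) (by decide +kernel)
  have i1 := inc h {K, l0, T1} {K, l0, l2, T1} {K, l0, l1, T0, R, T1} {K, l0, l1, T0, R, T1, l2}
    (by decide +kernel) (by decide +kernel)
  have i2 := inc h {K, l0} {K, l0, S} {K, l0, l1, T0, R, T1, l2} {K, l0, l1, T0, R, T1, l2, S}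
    (by decide +kernel) (by decide +kernel)
  have i4 := inc h {K, l2} {K, l2, b} {K, l0, l1, T0, R, T1, l2, S}
    {K, l0, l1, T0, R, T1, l2, S, b} (by decide +kernel) (by decide +kernel)
  have i5 := inc h {K, l2} {K, l2, b'} {K, l0, l1, T0, R, T1, l2, S, b}
    {K, l0, l1, l2, T0, T1, S, R, b, b'} (by decide +kernel) (by decide +kernel)
  linarith [h.tot, h.h021, h.h01, h.h0S, h.hL0, h.h2b, h.hL2, h.h2b']

end

section

variable {m M : ℕ} {G : Geo m M} (S : PSys G)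

theorem kM : S.κ = Real.log M - (S.eB - S.eL) := rfl

theorem cost_c7 (hP : PlaneS m) : ∃ C : ℝ, 0 ≤ C ∧ ∀ (M : ℕ) (G : Geo m M) (S : PSys G),
    HH (pY S) (VHY S) {K, l0, R, PR, l1} - HH (pY S) (VHY S) {K, l0, R, PR} ≤
      C * (S.κ + ell M) := by
  obtain ⟨C, hC, h⟩ := hP
  refine ⟨C, hC, fun M G S => ?_⟩
  have hb := baseH S
  have g := h M G (pY S) (hpY S) (VHY S K) (fun y => S.l (d0 y)) (fun y => S.l (S.σ (d0 y)))
    (fun y => S.T (d0 y)) (fun y => S.T (dR y)) (fun y => S.k (d0 y)) S.κ ?_ ?_ ?_ ?_ ?_ ?_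
  · refine le_trans (le_of_eq ?_) g
    unfold CE HH
    congr 1
    · refine Ent_congr' (hpY S) fun y y' h0 h0' => ?_
      rw [inf_rel]
      simp [Setoid.inf_iff_and, Setoid.ker_def]
      tauto
    · refine Ent_congr' (hpY S) fun y y' h0 h0' => ?_
      rw [inf_rel]
      simp [Setoid.inf_iff_and, Setoid.ker_def, and_assoc]
  · intro y y' h0 h0' hK
    exact S.kK _ _ ((MP_d0 S.l (pr S)).pos (hpY S).1 h0) ((MP_d0 S.l (pr S)).pos (hpY S).1 h0') hK
  · intro y h0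
    exact S.kJ _ ((MP_d0 S.l (pr S)).pos (hpY S).1 h0)
  · intro y h0
    exact S.Pσ _ ((MP_d0 S.l (pr S)).pos (hpY S).1 h0)
  · intro y h0 i
    have h1 := (MP_d0 S.l (pr S)).pos (hpY S).1 h0
    have h2 := (MP_d0σ S).pos (hpY S).1 h0
    have h3 := S.tub _ _ h1 h2 (S.Kσ _ h1) i
    rw [abs_sub_comm]
    exact h3
  · intro y h0
    have h1 := (MP_d0 S.l (pr S)).pos (hpY S).1 h0
    rcases S.ang _ h1 with h2 | ⟨i, h2⟩
    · exact Or.inl h2
    · refine Or.inr ⟨i, ?_⟩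
      rw [abs_sub_comm]
      exact h2
  · have e1 : CE (pY S) (Setoid.ker (fun y => S.T (dR y)))
        (VHY S K ⊓ Setoid.ker (fun y => S.l (d0 y)) ⊓ Setoid.ker (fun y => S.l (S.σ (d0 y)))
          ⊓ Setoid.ker (fun y => S.T (d0 y))) =
        HH (pY S) (VHY S) {K, l0, l1, T0, R} - HH (pY S) (VHY S) {K, l0, l1, T0} := by
      unfold CE HH
      congr 1
      · refine Ent_congr' (hpY S) fun y y' h0 h0' => ?_
        rw [inf_rel]
        simp [Setoid.inf_iff_and, Setoid.ker_def]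
        tauto
      · refine Ent_congr' (hpY S) fun y y' h0 h0' => ?_
        rw [inf_rel]
        simp [Setoid.inf_iff_and, Setoid.ker_def, and_assoc]
    rw [e1, kM, hb.h010]
    linarith [lowR hb]

theorem cost_d2 (hP : PlaneS m) : ∃ C : ℝ, 0 ≤ C ∧ ∀ (M : ℕ) (G : Geo m M) (S : PSys G),
    HH (pY S) (VHY S) {K, l1, T1, P1, l0} - HH (pY S) (VHY S) {K, l1, T1, P1} ≤
      C * (S.κ + ell M) := by
  obtain ⟨C, hC, h⟩ := hP
  refine ⟨C, hC, fun M G S => ?_⟩
  have hb := baseH S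
  have g := h M G (pY S) (hpY S) (VHY S K) (fun y => S.l (S.σ (d0 y))) (fun y => S.l (d0 y))
    (fun y => S.T (d0 y)) (fun y => S.T (d1 y)) (fun y => S.k (d0 y)) S.κ ?_ ?_ ?_ ?_ ?_ ?_
  · refine le_trans (le_of_eq ?_) g
    unfold CE HH
    congr 1
    · refine Ent_congr' (hpY S) fun y y' h0 h0' => ?_
      rw [inf_rel]
      simp [Setoid.inf_iff_and, Setoid.ker_def]
      tauto
    · refine Ent_congr' (hpY S) fun y y' h0 h0' => ?_
      rw [inf_rel]
      simp [Setoid.inf_iff_and, Setoid.ker_def, and_assoc]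
  · intro y y' h0 h0' hK
    exact S.kK _ _ ((MP_d0 S.l (pr S)).pos (hpY S).1 h0) ((MP_d0 S.l (pr S)).pos (hpY S).1 h0') hK
  · intro y h0
    exact S.kJ _ ((MP_d0 S.l (pr S)).pos (hpY S).1 h0)
  · intro y h0
    exact (S.Pσ _ ((MP_d0 S.l (pr S)).pos (hpY S).1 h0)).symm
  · intro y h0 i
    have h1 := (MP_d0 S.l (pr S)).pos (hpY S).1 h0
    have h2 := (MP_d0σ S).pos (hpY S).1 h0
    exact S.tub _ _ h1 h2 (S.Kσ _ h1) i
  · intro y h0
    exact S.ang _ ((MP_d0 S.l (pr S)).pos (hpY S).1 h0)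
  · have e1 : CE (pY S) (Setoid.ker (fun y => S.T (d1 y)))
        (VHY S K ⊓ Setoid.ker (fun y => S.l (S.σ (d0 y))) ⊓ Setoid.ker (fun y => S.l (d0 y))
          ⊓ Setoid.ker (fun y => S.T (d0 y))) =
        HH (pY S) (VHY S) {K, l0, l1, T0, T1} - HH (pY S) (VHY S) {K, l0, l1, T0} := by
      unfold CE HH
      congr 1
      · refine Ent_congr' (hpY S) fun y y' h0 h0' => ?_
        rw [inf_rel]
        simp [Setoid.inf_iff_and, Setoid.ker_def]
        tauto
      · refine Ent_congr' (hpY S) fun y y' h0 h0' => ?_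
        rw [inf_rel]
        simp [Setoid.inf_iff_and, Setoid.ker_def, and_assoc]
        tauto
    rw [e1, kM, hb.h010]
    linarith [lowT1 hb]

end

end Pool.Agent.Helper68.Kak
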