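import Pool.Agent.Helper8.Kak.Sys
import Pool.Agent.Helper8.Kak.Move

set_option autoImplicit false

/-!
# The plane counting lemma (planar Kakeya for hairbrushes)
-/

namespace Pool.Agent.Helper68.Kak

open Pool.Agent.Helper8.Kak

/-- the local geometric estimate: the direction of a line meeting two given lines lies close to
the line joining their directions -/
theorem core_real {ψ ψ' ψ0 ψ0' D D' δ E d : ℝ} (hE : 0 < E) (h0 : E < |ψ0|)
    (h1 : |ψ| ≤ |ψ0|) (h2 : |ψ0| ≤ 8 * E) (h3 : |ψ'| ≤ 8 * E) (h4 : |ψ0'| ≤ 8 * E)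
    (h5 : |D' * ψ' - D * ψ| ≤ 3 * δ) (h6 : |D' * ψ0' - D * ψ0| ≤ 3 * δ) (hd : 0 < d)
    (hcase : d * E ≤ 6 * δ ∨ d = |D|) :
    |(ψ' - ψ) - (ψ0' - ψ0) * (ψ / ψ0)| ≤ 192 * δ / d := by
  have hψ0 : ψ0 ≠ 0 := by
    intro h
    rw [h, abs_zero] at h0
    linarith
  have hq : |ψ / ψ0| ≤ 1 := by
    rw [abs_div]
    exact div_le_one_of_le₀ h1 (abs_nonneg _)
  by_cases hA : d * E ≤ 6 * δ
  · have b1 : |(ψ' - ψ) - (ψ0' - ψ0) * (ψ / ψ0)| ≤ 32 * E := by
      have t1 : |(ψ0' - ψ0) * (ψ / ψ0)| ≤ 16 * E := by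
        rw [abs_mul]
        have : |ψ0' - ψ0| ≤ 16 * E := (abs_sub _ _).trans (by linarith)
        calc |ψ0' - ψ0| * |ψ / ψ0| ≤ 16 * E * 1 :=
              mul_le_mul this hq (abs_nonneg _) (by positivity)
          _ = 16 * E := by ring
      have t2 : |ψ' - ψ| ≤ 16 * E := (abs_sub _ _).trans (by linarith)
      exact (abs_sub _ _).trans (by linarith)
    refine b1.trans ?_
    rw [le_div_iff₀ hd]
    nlinarith
  · have hD : d = |D| := by
      rcases hcase with h | h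
      · exact absurd h hA
      · exact h
    push Not at hA
    have hδ : 0 ≤ δ := by
      have := (abs_nonneg _).trans h5
      linarith
    have hDpos : 0 < |D| := hD ▸ hd
    -- |D'| ≥ |D| / 16
    have k1 : |D| * |ψ0| - 3 * δ ≤ |D'| * |ψ0'| := by
      rw [← abs_mul, ← abs_mul]
      have := abs_sub_abs_le_abs_sub (D * ψ0) (D' * ψ0')
      rw [abs_sub_comm] at this
      linarith
    have k2 : |D| * E ≤ |D| * |ψ0| := mul_le_mul_of_nonneg_left h0.le hDpos.le
    have k3 : |D'| * |ψ0'| ≤ |D'| * (8 * E) := mul_le_mul_of_nonneg_left h4 (abs_nonneg _)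
    have k4 : |D| ≤ 16 * |D'| := by
      have : |D| * E ≤ 16 * |D'| * E := by
        rw [hD] at hA
        nlinarith
      exact le_of_mul_le_mul_right this hE
    have hD'pos : 0 < |D'| := by linarith
    have hD'0 : D' ≠ 0 := by
      intro h
      rw [h, abs_zero] at hD'pos
      exact lt_irrefl _ hD'pos
    have e : (ψ' - ψ) - (ψ0' - ψ0) * (ψ / ψ0)
        = ((D' * ψ' - D * ψ) - (D' * ψ0' - D * ψ0) * (ψ / ψ0)) / D' := by
      field_simp
      ring
    rw [e, abs_div, div_le_div_iff₀ hD'pos hd]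
    have t : |(D' * ψ' - D * ψ) - (D' * ψ0' - D * ψ0) * (ψ / ψ0)| ≤ 6 * δ := by
      have t1 : |(D' * ψ0' - D * ψ0) * (ψ / ψ0)| ≤ 3 * δ := by
        rw [abs_mul]
        calc |D' * ψ0' - D * ψ0| * |ψ / ψ0| ≤ 3 * δ * 1 :=
              mul_le_mul h6 hq (abs_nonneg _) (by positivity)
          _ = 3 * δ := by ring
      exact (abs_sub _ _).trans (by linarith)
    rw [hD]
    calc |(D' * ψ' - D * ψ) - (D' * ψ0' - D * ψ0) * (ψ / ψ0)| * |D|
        ≤ 6 * δ * (16 * |D'|) := mul_le_mul t k4 hDpos.le (by positivity)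
      _ ≤ 192 * δ * |D'| := by nlinarith [mul_nonneg hδ hD'pos.le]

/-- number of integers in an interval -/
theorem card_interval (c : ℝ) {ρ : ℝ} (hρ : 0 ≤ ρ) (F : Finset ℤ)
    (hF : ∀ a ∈ F, |(a : ℝ) - c| ≤ ρ) : (F.card : ℝ) ≤ 2 * ρ + 1 := by
  have h := sum_interval_weight c hρ F
  have h2 : ∑ a ∈ F, (if |(a : ℝ) - c| ≤ ρ then (2 * ρ + 1)⁻¹ else 0)
      = F.card * (2 * ρ + 1)⁻¹ := by
    rw [Finset.sum_congr rfl fun a ha => if_pos (hF a ha), Finset.sum_const, nsmul_eq_mul]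
  rw [h2, ← div_eq_mul_inv, div_le_one (by positivity)] at h
  exact h

/-- number of heights in an interval -/
theorem card_heights {M : ℕ} (c : ℝ) {ρ : ℝ} (hρ : 0 ≤ ρ) (F : Finset (Fin M))
    (hF : ∀ t ∈ F, |ht t - c| ≤ ρ) : (F.card : ℝ) ≤ 2 * (M * ρ) + 1 := by
  classical
  rcases F.eq_empty_or_nonempty with h | ⟨t0, -⟩
  · rw [h]; simp; positivity
  have hM : 0 < M := lt_of_le_of_lt (Nat.zero_le _) t0.2
  have hM' : (0 : ℝ) < M := by exact_mod_cast hM
  have hinj : Function.Injective fun t : Fin M => ((t : ℕ) : ℤ) := by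
    intro a b h
    have h' : ((a : ℕ) : ℤ) = ((b : ℕ) : ℤ) := h
    exact Fin.ext (by exact_mod_cast h')
  have h := card_interval (M * c) (ρ := M * ρ) (by positivity)
    (F.map ⟨fun t : Fin M => ((t : ℕ) : ℤ), hinj⟩) ?_
  · rwa [Finset.card_map] at h
  · intro a ha
    obtain ⟨t, ht', rfl⟩ := Finset.mem_map.1 ha
    have h1 := hF t ht'
    have e : (((t : ℕ) : ℤ) : ℝ) - M * c = M * (ht t - c) := by
      unfold ht
      push_cast
      field_simp
    show |(((t : ℕ) : ℤ) : ℝ) - M * c| ≤ M * ρ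
    rw [e, abs_mul, abs_of_pos hM']
    exact mul_le_mul_of_nonneg_left h1 hM'.le

/-- the harmonic sum over a symmetric range of integers -/
theorem sum_harm (N : ℕ) (F : Finset ℤ) (hF : ∀ a ∈ F, |a| ≤ (N : ℤ)) :
    ∑ a ∈ F, (max |(a : ℝ)| 1)⁻¹ ≤ 3 + 2 * Real.log (N + 1) := by
  classical
  have hsub : F ⊆ Finset.Icc (-(N : ℤ)) N := by
    intro a ha
    have := abs_le.1 (hF a ha)
    exact Finset.mem_Icc.2 this
  have hpos : ∀ a : ℤ, 0 ≤ (max |(a : ℝ)| 1)⁻¹ := fun a => by positivity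
  refine (Finset.sum_le_sum_of_subset_of_nonneg hsub fun a _ _ => hpos a).trans ?_
  have hsplit : ∀ n : ℕ, ∑ a ∈ Finset.Icc (-(n : ℤ)) n, (max |(a : ℝ)| 1)⁻¹
      = 1 + 2 * ∑ j ∈ Finset.range n, ((j : ℝ) + 1)⁻¹ := by
    intro n
    induction n with
    | zero => simp
    | succ n ih =>
      rw [Finset.sum_range_succ, mul_add, ← add_assoc, ← ih]
      have e0 : Finset.Icc (-((n + 1 : ℕ) : ℤ)) ((n + 1 : ℕ) : ℤ)
          = insert (-((n : ℤ) + 1)) (insert ((n : ℤ) + 1) (Finset.Icc (-(n : ℤ)) n)) := by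
        ext a
        simp only [Finset.mem_Icc, Finset.mem_insert]
        push_cast
        omega
      have hn : (0 : ℝ) ≤ n := Nat.cast_nonneg n
      rw [e0, Finset.sum_insert, Finset.sum_insert]
      · have a1 : max |(((-((n : ℤ) + 1) : ℤ)) : ℝ)| 1 = (n : ℝ) + 1 := by
          push_cast
          rw [abs_of_nonpos (by linarith), max_eq_left (by linarith)]
          ring
        have a2 : max |((((n : ℤ) + 1 : ℤ)) : ℝ)| 1 = (n : ℝ) + 1 := by
          push_cast
          rw [abs_of_nonneg (by positivity), max_eq_left (by linarith)]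
        rw [a1, a2]
        ring
      · simp
      · simp only [Finset.mem_insert, Finset.mem_Icc]
        omega
  rw [hsplit]
  have h1 := harmonic_le_one_add_log N
  have h2 : ((harmonic N : ℚ) : ℝ) = ∑ j ∈ Finset.range N, ((j : ℝ) + 1)⁻¹ := by
    unfold harmonic
    push_cast
    rfl
  rw [h2] at h1
  have h3 : Real.log N ≤ Real.log (N + 1) := by
    rcases Nat.eq_zero_or_pos N with h | h
    · rw [h]; simp
    · exact Real.log_le_log (by exact_mod_cast h) (by linarith)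
  linarith

/-- multidimensional inverse square sum -/
theorem sum_box {m : ℕ} (F : Finset (Fin m → ℤ)) :
    ∑ o ∈ F, ∏ i, (1 / (1 + |(o i : ℝ)|)) ^ 2 ≤ 3 ^ m := by
  classical
  have hsub : F ⊆ Fintype.piFinset fun i => F.image fun o => o i := by
    intro o ho
    rw [Fintype.mem_piFinset]
    intro i
    exact Finset.mem_image_of_mem _ ho
  refine (Finset.sum_le_sum_of_subset_of_nonneg hsub fun a _ _ => ?_).trans ?_
  · exact Finset.prod_nonneg fun i _ => by positivity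
  rw [← Finset.prod_univ_sum (t := fun i => F.image fun o => o i)
    (f := fun (_ : Fin m) (a : ℤ) => (1 / (1 + |(a : ℝ)|)) ^ 2)]
  calc ∏ i : Fin m, ∑ a ∈ (F.image fun o : Fin m → ℤ => o i : Finset ℤ),
        (1 / (1 + |(a : ℝ)|)) ^ 2
      ≤ ∏ _i : Fin m, (3 : ℝ) := by
        refine Finset.prod_le_prod (fun i _ => Finset.sum_nonneg fun a _ => by positivity)
          fun i _ => ?_
        have h := sum_heavy_weight (M := 1) le_rfl (F.image fun o => o i)
        have e : ∀ a : ℤ, (1 / (1 + |(a : ℝ)|)) ^ 2 = 3 * (3 * 1 * (1 + |(a : ℝ)| / 1) ^ 2)⁻¹ := by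
          intro a
          have : 0 < 1 + |(a : ℝ)| := by positivity
          field_simp
        rw [Finset.sum_congr rfl fun a _ => e a, ← Finset.mul_sum]
        linarith
    _ = 3 ^ m := by simp

/-- the lines `l'` that meet `l0` (at some height), make with `l0` an angle of size at most
`8 * 2^-k`, and pass through the cell `q` at height `R` -/
def NS {m M : ℕ} (G : Geo m M) (k : ℕ) (l0 : G.L) (R : Fin M) (q : Fin m → ℤ) : Set G.L :=
  {l' | (∃ t : Fin M, G.P l' t = G.P l0 t) ∧ (∀ i, |G.v l' i - G.v l0 i| ≤ 8 * (1 / 2) ^ k) ∧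
    G.P l' R = q}

theorem lines_finite {m M : ℕ} (G : Geo m M) : Finite G.L := by
  have h : ∀ l : G.L, cell G.δ (G.v l) ∈ Fintype.piFinset fun _ : Fin m =>
      Finset.Icc ⌊-1 / G.δ⌋ ⌊1 / G.δ⌋ := by
    intro l
    rw [Fintype.mem_piFinset]
    intro i
    have := abs_le.1 (G.hv l i)
    rw [Finset.mem_Icc]
    exact ⟨Int.floor_le_floor (by
        exact div_le_div_of_nonneg_right this.1 G.hδ.le), Int.floor_le_floor (by
        exact div_le_div_of_nonneg_right this.2 G.hδ.le)⟩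
  exact Finite.of_injective (fun l => (⟨cell G.δ (G.v l), h l⟩ :
    {x // x ∈ Fintype.piFinset fun _ : Fin m => Finset.Icc ⌊-1 / G.δ⌋ ⌊1 / G.δ⌋}))
    fun a b hab => G.hinj (by simpa using hab)

/-- two points of the same cell -/
theorem P_near {m M : ℕ} (G : Geo m M) {l l' : G.L} {t : Fin M} (h : G.P l t = G.P l' t)
    (i : Fin m) : |(G.x l i + ht t * G.v l i) - (G.x l' i + ht t * G.v l' i)| ≤ G.δ := by
  have := congrFun h i
  exact floor_eq_near G.hδ this

/-- three incidences give a linear relation between the directions -/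
theorem dir_rel {m M : ℕ} (G : Geo m M) {l0 l1 l' : G.L} {T0 T' R : Fin M}
    (h1 : G.P l1 T0 = G.P l0 T0) (h2 : G.P l' T' = G.P l0 T') (h3 : G.P l' R = G.P l1 R)
    (i : Fin m) :
    |(ht R - ht T') * (G.v l' i - G.v l0 i) - (ht R - ht T0) * (G.v l1 i - G.v l0 i)|
      ≤ 3 * G.δ := by
  have a1 := P_near G h1 i
  have a2 := P_near G h2 i
  have a3 := P_near G h3 i
  rw [abs_le] at *
  constructor <;> nlinarith [a1.1, a1.2, a2.1, a2.2, a3.1, a3.2]

/-- first code of a line: position along the segment of directions -/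
noncomputable def jj {m M : ℕ} (G : Geo m M) (l1 : G.L) (i0 : Fin m) (l' : G.L) : ℤ :=
  ⌊(G.v l' i0 - G.v l1 i0) / G.δ⌋

/-- second code of a line: offset from the segment of directions -/
noncomputable def oo {m M : ℕ} (G : Geo m M) (l0 l1 : G.L) (i0 : Fin m) (l' : G.L) :
    Fin m → ℤ := fun i =>
  ⌊G.v l' i / G.δ⌋ - ⌊(G.v l1 i + G.δ * (jj G l1 i0 l' : ℝ) *
    ((G.v l1 i - G.v l0 i) / (G.v l1 i0 - G.v l0 i0))) / G.δ⌋

theorem code_inj {m M : ℕ} (G : Geo m M) (l0 l1 : G.L) (i0 : Fin m) :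
    Function.Injective fun l' => (jj G l1 i0 l', oo G l0 l1 i0 l') := by
  intro a b h
  simp only [Prod.mk.injEq] at h
  obtain ⟨h1, h2⟩ := h
  apply G.hinj
  funext i
  have h3 := congrFun h2 i
  simp only [oo, h1] at h3
  show ⌊G.v a i / G.δ⌋ = ⌊G.v b i / G.δ⌋
  omega

theorem floor_sub_le {δ a b e : ℝ} (hδ : 0 < δ) (h : |a - b| ≤ e) :
    |((⌊a / δ⌋ - ⌊b / δ⌋ : ℤ) : ℝ)| ≤ e / δ + 1 := by
  have h1 := Int.floor_le (a / δ)
  have h2 := Int.lt_floor_add_one (a / δ)
  have h3 := Int.floor_le (b / δ)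
  have h4 := Int.lt_floor_add_one (b / δ)
  have h5 : |a / δ - b / δ| ≤ e / δ := by
    rw [← sub_div, abs_div, abs_of_pos hδ]
    exact div_le_div_of_nonneg_right h hδ.le
  rw [abs_le] at h5 ⊢
  push_cast
  constructor <;> linarith [h5.1, h5.2]

section fix

variable {m M : ℕ} (G : Geo m M) {k : ℕ} {l0 l1 : G.L} {T0 : Fin M} {i0 : Fin m}

include G in
theorem M_pos' : (0 : ℝ) < M := by
  rcases Nat.eq_zero_or_pos M with h | h
  · have h1 := G.hM
    have h2 : (M : ℝ) = 0 := by exact_mod_cast h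
    rw [h2, mul_zero] at h1
    linarith
  · exact_mod_cast h

/-- distance of heights against the offsets -/
theorem dst_le_off (hP : G.P l1 T0 = G.P l0 T0)
    (ht1 : ∀ i, |G.v l1 i - G.v l0 i| ≤ 8 * (1 / 2) ^ k)
    (hmax : ∀ i, |G.v l1 i - G.v l0 i| ≤ |G.v l1 i0 - G.v l0 i0|)
    (hang : (1 / 2) ^ k < |G.v l1 i0 - G.v l0 i0|) {l' : G.L} {R : Fin M}
    (hl' : l' ∈ NS G k l0 R (G.P l1 R)) (i : Fin m) :
    dst R T0 ≤ 195 * (1 / (1 + |(oo G l0 l1 i0 l' i : ℝ)|)) := by
  obtain ⟨⟨T', hT'⟩, htube, hR⟩ := hl'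
  have hδ := G.hδ
  have hd := dst_pos R T0
  have hd1 := dst_le_one R T0
  have hE : (0 : ℝ) < (1 / 2) ^ k := by positivity
  have hE1 : ((1 : ℝ) / 2) ^ k ≤ 1 := pow_le_one₀ (by norm_num) (by norm_num)
  have hcase : dst R T0 * (1 / 2) ^ k ≤ 6 * G.δ ∨ dst R T0 = |ht R - ht T0| := by
    rcases le_total |ht R - ht T0| (1 / M) with h | h
    · left
      have : dst R T0 = 1 / M := max_eq_right h
      rw [this]
      have hM := M_pos' G
      have h2 : 1 / (M : ℝ) ≤ G.δ := by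
        rw [div_le_iff₀ hM]
        exact G.hM
      calc 1 / (M : ℝ) * (1 / 2) ^ k ≤ G.δ * 1 :=
            mul_le_mul h2 hE1 hE.le hδ.le
        _ ≤ 6 * G.δ := by linarith
    · right
      exact max_eq_left h
  have key := core_real (D := ht R - ht T0) (D' := ht R - ht T') (δ := G.δ) hE hang (hmax i)
    (ht1 i0) (htube i) (htube i0) (dir_rel G hP hT' hR i) (dir_rel G hP hT' hR i0) hd hcase
  set q : ℝ := (G.v l1 i - G.v l0 i) / (G.v l1 i0 - G.v l0 i0) with hq
  have hq1 : |q| ≤ 1 := by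
    rw [hq, abs_div]
    exact div_le_one_of_le₀ (hmax i) (abs_nonneg _)
  obtain ⟨f1, f2⟩ := floor_near (u := G.v l' i0 - G.v l1 i0) hδ
  have hb : |G.v l' i - (G.v l1 i + G.δ * (jj G l1 i0 l' : ℝ) * q)| ≤ 192 * G.δ / dst R T0 + G.δ := by
    have e : G.v l' i - (G.v l1 i + G.δ * (jj G l1 i0 l' : ℝ) * q)
        = ((G.v l' i - G.v l0 i - (G.v l1 i - G.v l0 i))
            - (G.v l' i0 - G.v l0 i0 - (G.v l1 i0 - G.v l0 i0)) * q)
          + ((G.v l' i0 - G.v l1 i0) - G.δ * (jj G l1 i0 l' : ℝ)) * q := by ring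
    rw [e]
    refine (abs_add_le _ _).trans (add_le_add key ?_)
    rw [abs_mul]
    calc |(G.v l' i0 - G.v l1 i0) - G.δ * (jj G l1 i0 l' : ℝ)| * |q| ≤ G.δ * 1 :=
          mul_le_mul (abs_floor_near hδ) hq1 (abs_nonneg _) hδ.le
      _ = G.δ := mul_one _
  have hf := floor_sub_le hδ hb
  have ho : |(oo G l0 l1 i0 l' i : ℝ)| ≤ 194 / dst R T0 := by
    refine (show |(oo G l0 l1 i0 l' i : ℝ)| ≤ _ from hf).trans ?_
    have e1 : (192 * G.δ / dst R T0 + G.δ) / G.δ + 1 = 192 / dst R T0 + 2 := by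
      field_simp
      ring
    rw [e1]
    have : 2 ≤ 2 / dst R T0 := by
      rw [le_div_iff₀ hd]
      linarith
    have e2 : 194 / dst R T0 = 192 / dst R T0 + 2 / dst R T0 := by
      rw [← add_div]; norm_num
    rw [e2]
    linarith
  have ho' : 1 + |(oo G l0 l1 i0 l' i : ℝ)| ≤ 195 / dst R T0 := by
    have : 1 ≤ 1 / dst R T0 := by
      rw [le_div_iff₀ hd]
      linarith
    have e2 : 195 / dst R T0 = 194 / dst R T0 + 1 / dst R T0 := by
      rw [← add_div]; norm_num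
    rw [e2]
    linarith
  rw [le_div_iff₀ hd] at ho'
  rw [mul_one_div, le_div_iff₀ (by positivity)]
  linarith

/-- number of heights at which two lines meet -/
theorem card_meet (l1 l' : G.L) (i0 : Fin m) (F : Finset (Fin M))
    (hF : ∀ R ∈ F, G.P l' R = G.P l1 R) :
    (F.card : ℝ) ≤ 8 * M * (max |(jj G l1 i0 l' : ℝ)| 1)⁻¹ := by
  have hM := M_pos' G
  have hδ := G.hδ
  set b := G.v l' i0 - G.v l1 i0 with hb
  have hj1 := Int.floor_le (b / G.δ)
  have hj2 := Int.lt_floor_add_one (b / G.δ)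
  have hjd : (jj G l1 i0 l') = ⌊b / G.δ⌋ := rfl
  by_cases hj : |(jj G l1 i0 l' : ℝ)| ≤ 1
  · rw [max_eq_right hj, inv_one, mul_one]
    have h1 : (F.card : ℝ) ≤ M := by
      have := Finset.card_le_univ F
      rw [Fintype.card_fin] at this
      exact_mod_cast this
    linarith
  · push Not at hj
    rw [max_eq_left hj.le]
    -- |b| ≥ |j| δ / 2
    have hj2' : 2 ≤ |(jj G l1 i0 l' : ℝ)| := by
      have h1 : (1 : ℤ) < |jj G l1 i0 l'| := by exact_mod_cast hj
      have h2 : (2 : ℤ) ≤ |jj G l1 i0 l'| := h1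
      exact_mod_cast h2
    have hbj : |(jj G l1 i0 l' : ℝ)| / 2 ≤ |b| / G.δ := by
      have h0 : |b| / G.δ = |b / G.δ| := by rw [abs_div, abs_of_pos hδ]
      rw [h0, hjd] at *
      rcases abs_cases ((⌊b / G.δ⌋ : ℤ) : ℝ) with ⟨h3, h4⟩ | ⟨h3, h4⟩ <;>
      rcases abs_cases (b / G.δ) with ⟨h5, h6⟩ | ⟨h5, h6⟩ <;> linarith
    have hjM : |(jj G l1 i0 l' : ℝ)| ≤ 4 * M := by
      have h1 : |b| ≤ 2 := by
        have := abs_sub (G.v l' i0) (G.v l1 i0)
        linarith [G.hv l' i0, G.hv l1 i0]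
      have h2 : |b| / G.δ ≤ 2 * M := by
        rw [div_le_iff₀ hδ]
        have := G.hM
        nlinarith
      linarith
    have hbpos : 0 < |b| := by
      have : 0 < |b| / G.δ := by linarith
      have := mul_pos this hδ
      rwa [div_mul_cancel₀ _ hδ.ne'] at this
    have hb0 : b ≠ 0 := abs_pos.1 hbpos
    have hc := card_heights (M := M) (-((G.x l' i0 - G.x l1 i0) / b)) (ρ := G.δ / |b|)
      (by positivity) F ?_
    · have h3 : G.δ / |b| ≤ 2 / |(jj G l1 i0 l' : ℝ)| := by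
        rw [div_le_div_iff₀ hbpos (by linarith)]
        rw [div_le_div_iff₀ (by norm_num) hδ] at hbj
        linarith
      have hjpos : 0 < |(jj G l1 i0 l' : ℝ)| := by linarith
      have h4 : (1 : ℝ) ≤ 4 * M * |(jj G l1 i0 l' : ℝ)|⁻¹ := by
        rw [← div_eq_mul_inv, le_div_iff₀ hjpos]
        linarith
      have h5 : (M : ℝ) * (G.δ / |b|) ≤ M * (2 / |(jj G l1 i0 l' : ℝ)|) :=
        mul_le_mul_of_nonneg_left h3 hM.le
      have h6 : (M : ℝ) * (2 / |(jj G l1 i0 l' : ℝ)|) = 2 * M * |(jj G l1 i0 l' : ℝ)|⁻¹ := by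
        rw [div_eq_mul_inv]; ring
      linarith
    · intro R hR
      have h3 := P_near G (hF R hR) i0
      have e : ht R - -((G.x l' i0 - G.x l1 i0) / b)
          = ((G.x l' i0 + ht R * G.v l' i0) - (G.x l1 i0 + ht R * G.v l1 i0)) / b := by
        field_simp
        rw [hb]
        ring
      rw [e, abs_div]
      exact div_le_div_of_nonneg_right h3 hbpos.le

/-- **plane counting lemma** -/
theorem plane_count [Fintype G.L] (hP : G.P l1 T0 = G.P l0 T0)
    (ht1 : ∀ i, |G.v l1 i - G.v l0 i| ≤ 8 * (1 / 2) ^ k)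
    (hang : (1 / 2) ^ k ≤ G.δ ∨ ∃ i, (1 / 2) ^ k < |G.v l1 i - G.v l0 i|) :
    ∑ R : Fin M, ((NS G k l0 R (G.P l1 R)).ncard : ℝ) * dst R T0 ^ (2 * m)
      ≤ (8 * 195 ^ (2 * m) * 3 ^ m) * M * (3 + 2 * Real.log (4 * M + 1)) := by
  classical
  have hM := M_pos' G
  have hδ := G.hδ
  have hM1 : (1 : ℝ) ≤ M := by
    have : 0 < M := by exact_mod_cast hM
    exact_mod_cast this
  have hlog : 0 ≤ Real.log (4 * M + 1) := Real.log_nonneg (by linarith)
  have hNS : ∀ R : Fin M, ((NS G k l0 R (G.P l1 R)).ncard : ℝ)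
      = ∑ l' : G.L, if l' ∈ NS G k l0 R (G.P l1 R) then (1 : ℝ) else 0 := by
    intro R
    rw [Finset.sum_boole, Set.ncard_eq_toFinset_card']
    congr 2
    ext x
    simp
  rcases hang with hk | ⟨i1, hi1⟩
  · -- narrow case
    have hN : ∀ R : Fin M, ((NS G k l0 R (G.P l1 R)).ncard : ℝ) * dst R T0 ^ (2 * m)
        ≤ 35 ^ m := by
      intro R
      have h1 : ((NS G k l0 R (G.P l1 R)).ncard : ℝ) ≤ 35 ^ m := by
        rw [Set.ncard_eq_toFinset_card']
        have h2 := card_box (fun i => ((⌊G.v l0 i / G.δ⌋ : ℤ) : ℝ)) (ρ := 9) (by norm_num)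
          ((NS G k l0 R (G.P l1 R)).toFinset.map ⟨fun l => cell G.δ (G.v l), G.hinj⟩) ?_
        · rw [Finset.card_map] at h2
          refine h2.trans ?_
          gcongr
          norm_num
        · intro a ha i
          obtain ⟨l, hl, rfl⟩ := Finset.mem_map.1 ha
          rw [Set.mem_toFinset] at hl
          have h3 := hl.2.1 i
          have h4 : |G.v l i - G.v l0 i| ≤ 8 * G.δ := h3.trans (by linarith)
          have h5 := floor_sub_le hδ h4
          show |((⌊G.v l i / G.δ⌋ : ℤ) : ℝ) - ((⌊G.v l0 i / G.δ⌋ : ℤ) : ℝ)| ≤ 9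
          push_cast at h5
          refine h5.trans ?_
          rw [mul_div_assoc, div_self hδ.ne']
          norm_num
      have h2 : dst R T0 ^ (2 * m) ≤ 1 := pow_le_one₀ (dst_pos R T0).le (dst_le_one R T0)
      have h3 : 0 ≤ dst R T0 ^ (2 * m) := pow_nonneg (dst_pos R T0).le _
      calc ((NS G k l0 R (G.P l1 R)).ncard : ℝ) * dst R T0 ^ (2 * m) ≤ 35 ^ m * 1 :=
            mul_le_mul h1 h2 h3 (by positivity)
        _ = 35 ^ m := mul_one _
    refine (Finset.sum_le_sum fun R _ => hN R).trans ?_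
    rw [Finset.sum_const, Finset.card_univ, Fintype.card_fin, nsmul_eq_mul]
    have h1 : (35 : ℝ) ^ m ≤ 195 ^ (2 * m) := by
      rw [pow_mul]
      gcongr
      norm_num
    have h2 : (1 : ℝ) ≤ 3 ^ m := one_le_pow₀ (by norm_num)
    have h3 : (0 : ℝ) ≤ 195 ^ (2 * m) := by positivity
    calc (M : ℝ) * 35 ^ m ≤ M * 195 ^ (2 * m) := mul_le_mul_of_nonneg_left h1 hM.le
      _ = (1 * 195 ^ (2 * m) * 1) * M * 1 := by ring
      _ ≤ (8 * 195 ^ (2 * m) * 3 ^ m) * M * (3 + 2 * Real.log (4 * M + 1)) := by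
          gcongr
          · norm_num
          · linarith
  · -- transversal case
    obtain ⟨i0, -, hmax⟩ := Finset.exists_max_image Finset.univ
      (fun i => |G.v l1 i - G.v l0 i|) ⟨i1, Finset.mem_univ _⟩
    have hmax' : ∀ i, |G.v l1 i - G.v l0 i| ≤ |G.v l1 i0 - G.v l0 i0| := fun i =>
      hmax i (Finset.mem_univ _)
    have hang0 : (1 / 2) ^ k < |G.v l1 i0 - G.v l0 i0| := hi1.trans_le (hmax' i1)
    set w : G.L → ℝ := fun l' => ∏ i, (1 / (1 + |(oo G l0 l1 i0 l' i : ℝ)|)) ^ 2 with hw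
    have hw0 : ∀ l', 0 ≤ w l' := fun l' => Finset.prod_nonneg fun i _ => by positivity
    have hdw : ∀ R : Fin M, ∀ l' ∈ NS G k l0 R (G.P l1 R),
        dst R T0 ^ (2 * m) ≤ 195 ^ (2 * m) * w l' := by
      intro R l' hl'
      have h1 : ∀ i, dst R T0 ^ 2 ≤ 195 ^ 2 * (1 / (1 + |(oo G l0 l1 i0 l' i : ℝ)|)) ^ 2 := by
        intro i
        have := dst_le_off G hP ht1 hmax' hang0 hl' i
        have h0 := (dst_pos R T0).le
        rw [← mul_pow]
        gcongr
      calc dst R T0 ^ (2 * m) = ∏ _i : Fin m, dst R T0 ^ 2 := by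
            rw [Finset.prod_const, Finset.card_univ, Fintype.card_fin, ← pow_mul]
        _ ≤ ∏ i : Fin m, (195 ^ 2 * (1 / (1 + |(oo G l0 l1 i0 l' i : ℝ)|)) ^ 2) :=
            Finset.prod_le_prod (fun _ _ => by have := dst_pos R T0; positivity) fun i _ => h1 i
        _ = 195 ^ (2 * m) * w l' := by
            rw [Finset.prod_mul_distrib, Finset.prod_const, Finset.card_univ, Fintype.card_fin,
              ← pow_mul]
    -- contribution of one line
    have hline : ∀ l' : G.L, ∑ R : Fin M,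
        (if l' ∈ NS G k l0 R (G.P l1 R) then (1 : ℝ) else 0) * dst R T0 ^ (2 * m)
        ≤ (8 * M * 195 ^ (2 * m)) * ((max |(jj G l1 i0 l' : ℝ)| 1)⁻¹ * w l') := by
      intro l'
      set F : Finset (Fin M) := Finset.univ.filter fun R => l' ∈ NS G k l0 R (G.P l1 R) with hF
      have h1 : ∑ R : Fin M,
          (if l' ∈ NS G k l0 R (G.P l1 R) then (1 : ℝ) else 0) * dst R T0 ^ (2 * m)
          = ∑ R ∈ F, dst R T0 ^ (2 * m) := by
        rw [hF, Finset.sum_filter]
        refine Finset.sum_congr rfl fun R _ => ?_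
        split_ifs <;> simp
      rw [h1]
      have h2 : ∑ R ∈ F, dst R T0 ^ (2 * m) ≤ F.card * (195 ^ (2 * m) * w l') := by
        rw [← nsmul_eq_mul]
        exact Finset.sum_le_card_nsmul F _ _ fun R hR => hdw R l' (Finset.mem_filter.1 hR).2
      refine h2.trans ?_
      have h3 := card_meet G l1 l' i0 F fun R hR => (Finset.mem_filter.1 hR).2.2.2
      calc (F.card : ℝ) * (195 ^ (2 * m) * w l')
          ≤ (8 * M * (max |(jj G l1 i0 l' : ℝ)| 1)⁻¹) * (195 ^ (2 * m) * w l') :=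
            mul_le_mul_of_nonneg_right h3 (mul_nonneg (by positivity) (hw0 l'))
        _ = _ := by ring
    -- sum over the lines
    have hsum : ∑ l' : G.L, (max |(jj G l1 i0 l' : ℝ)| 1)⁻¹ * w l'
        ≤ (3 + 2 * Real.log (4 * M + 1)) * 3 ^ m := by
      set f : ℤ × (Fin m → ℤ) → ℝ := fun c =>
        (max |(c.1 : ℝ)| 1)⁻¹ * ∏ i, (1 / (1 + |(c.2 i : ℝ)|)) ^ 2 with hf
      have h1 : ∑ l' : G.L, (max |(jj G l1 i0 l' : ℝ)| 1)⁻¹ * w l'
          = ∑ c ∈ Finset.univ.image fun l' => (jj G l1 i0 l', oo G l0 l1 i0 l'), f c := by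
        rw [Finset.sum_image fun a _ b _ h => code_inj G l0 l1 i0 h]
      rw [h1]
      set A : Finset ℤ := Finset.univ.image fun l' => jj G l1 i0 l' with hA
      set O : Finset (Fin m → ℤ) := Finset.univ.image fun l' => oo G l0 l1 i0 l' with hO
      have hsub : (Finset.univ.image fun l' => (jj G l1 i0 l', oo G l0 l1 i0 l')) ⊆ A ×ˢ O := by
        intro c hc
        obtain ⟨l', -, rfl⟩ := Finset.mem_image.1 hc
        exact Finset.mem_product.2 ⟨Finset.mem_image_of_mem _ (Finset.mem_univ _),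
          Finset.mem_image_of_mem _ (Finset.mem_univ _)⟩
      refine (Finset.sum_le_sum_of_subset_of_nonneg hsub fun c _ _ => ?_).trans ?_
      · exact mul_nonneg (by positivity) (Finset.prod_nonneg fun i _ => by positivity)
      rw [Finset.sum_product]
      simp only [hf]
      have h2 : ∑ x ∈ A, ∑ y ∈ O, (max |(x : ℝ)| 1)⁻¹ * ∏ i, (1 / (1 + |(y i : ℝ)|)) ^ 2
          = (∑ x ∈ A, (max |(x : ℝ)| 1)⁻¹) * ∑ y ∈ O, ∏ i, (1 / (1 + |(y i : ℝ)|)) ^ 2 := by
        rw [Finset.sum_mul]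
        refine Finset.sum_congr rfl fun x _ => ?_
        rw [Finset.mul_sum]
      rw [h2]
      have h3 : ∑ x ∈ A, (max |(x : ℝ)| 1)⁻¹ ≤ 3 + 2 * Real.log (4 * M + 1) := by
        have := sum_harm (4 * M) A ?_
        · push_cast at this
          exact this
        · intro a ha
          obtain ⟨l', -, rfl⟩ := Finset.mem_image.1 ha
          -- bound of the code
          have hb : |(G.v l' i0 - G.v l1 i0) - 0| ≤ 2 := by
            have := abs_sub (G.v l' i0) (G.v l1 i0)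
            rw [sub_zero]
            linarith [G.hv l' i0, G.hv l1 i0]
          have h5 := floor_sub_le hδ hb
          rw [zero_div, Int.floor_zero, sub_zero] at h5
          have h6 : 2 / G.δ + 1 ≤ 4 * M := by
            have h7 : 2 / G.δ ≤ 2 * M := by
              rw [div_le_iff₀ hδ]
              have := G.hM
              nlinarith
            linarith
          have h8 : |(jj G l1 i0 l' : ℝ)| ≤ ((4 * M : ℕ) : ℝ) := by
            push_cast
            exact le_trans h5 h6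
          exact_mod_cast h8
      have h4 := sum_box O
      have h5 : 0 ≤ ∑ y ∈ O, ∏ i, (1 / (1 + |(y i : ℝ)|)) ^ 2 :=
        Finset.sum_nonneg fun y _ => Finset.prod_nonneg fun i _ => by positivity
      exact mul_le_mul h3 h4 h5 (by linarith)
    calc ∑ R : Fin M, ((NS G k l0 R (G.P l1 R)).ncard : ℝ) * dst R T0 ^ (2 * m)
        = ∑ l' : G.L, ∑ R : Fin M,
          (if l' ∈ NS G k l0 R (G.P l1 R) then (1 : ℝ) else 0) * dst R T0 ^ (2 * m) := by
          rw [Finset.sum_comm]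
          refine Finset.sum_congr rfl fun R _ => ?_
          rw [hNS R, Finset.sum_mul]
      _ ≤ ∑ l' : G.L, (8 * M * 195 ^ (2 * m)) * ((max |(jj G l1 i0 l' : ℝ)| 1)⁻¹ * w l') :=
          Finset.sum_le_sum fun l' _ => hline l'
      _ = (8 * M * 195 ^ (2 * m)) * ∑ l' : G.L, (max |(jj G l1 i0 l' : ℝ)| 1)⁻¹ * w l' := by
          rw [Finset.mul_sum]
      _ ≤ (8 * M * 195 ^ (2 * m)) * ((3 + 2 * Real.log (4 * M + 1)) * 3 ^ m) :=
          mul_le_mul_of_nonneg_left hsum (by positivity)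
      _ = _ := by ring

end fix

end Pool.Agent.Helper68.Kak
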