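import Pool.Agent.Helper68.Kak.PlaneCount

set_option autoImplicit false

/-!
# The entropic plane lemma
-/

namespace Pool.Agent.Helper68.Kak

open Pool.Agent.Helper8.Kak

theorem log_const_bound (m : ℕ) :
    Real.log (8 * 195 ^ (2 * m) * 3 ^ m) + 4 * m * Real.log 5 + Real.log 3 ≤ 21 * m + 4 := by
  have h2 : Real.log 2 ≤ 0.7 := by
    have := Real.log_two_lt_d9
    linarith
  have h3 : Real.log 3 ≤ 1.4 := by
    have : Real.log 3 ≤ Real.log (2 ^ 2) := Real.log_le_log (by norm_num) (by norm_num)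
    rw [Real.log_pow] at this
    push_cast at this
    linarith
  have h5 : Real.log 5 ≤ 2.1 := by
    have : Real.log 5 ≤ Real.log (2 ^ 3) := Real.log_le_log (by norm_num) (by norm_num)
    rw [Real.log_pow] at this
    push_cast at this
    linarith
  have h8 : Real.log 8 ≤ 2.1 := by
    have : Real.log 8 ≤ Real.log (2 ^ 3) := Real.log_le_log (by norm_num) (by norm_num)
    rw [Real.log_pow] at this
    push_cast at this
    linarith
  have h195 : Real.log 195 ≤ 5.6 := by
    have : Real.log 195 ≤ Real.log (2 ^ 8) := Real.log_le_log (by norm_num) (by norm_num)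
    rw [Real.log_pow] at this
    push_cast at this
    linarith
  rw [Real.log_mul (by positivity) (by positivity), Real.log_mul (by positivity) (by positivity),
    Real.log_pow, Real.log_pow]
  push_cast
  have hm : (0 : ℝ) ≤ m := Nat.cast_nonneg m
  nlinarith [mul_le_mul_of_nonneg_left h195 hm, mul_le_mul_of_nonneg_left h3 hm,
    mul_le_mul_of_nonneg_left h5 hm]

theorem loglog_bound {M : ℝ} (hM : 1 ≤ M) :
    Real.log (3 + 2 * Real.log (4 * M + 1)) ≤ Real.log 3 + Real.log (Real.log M + 3) := by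
  have h0 : 0 ≤ Real.log M := Real.log_nonneg hM
  have h1 : Real.log (4 * M + 1) ≤ 3 + Real.log M := by
    have h2 : Real.log (4 * M + 1) ≤ Real.log (8 * M) :=
      Real.log_le_log (by linarith) (by linarith)
    rw [Real.log_mul (by norm_num) (by linarith)] at h2
    have h8 : Real.log 8 ≤ 3 := by
      have h : Real.log 8 = 3 * Real.log 2 := by
        rw [show (8 : ℝ) = 2 ^ 3 by norm_num, Real.log_pow]; norm_num
      have := Real.log_two_lt_d9
      linarith
    linarith
  have h4 : 0 ≤ Real.log (4 * M + 1) := Real.log_nonneg (by linarith)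
  rw [← Real.log_mul (by norm_num) (by linarith)]
  exact Real.log_le_log (by linarith) (by linarith)

/-- **entropic plane lemma** -/
theorem plane_ent {m M : ℕ} (G : Geo m M) {Ω : Type} [Fintype Ω] {p : Ω → ℝ} (hp : IsProb p)
    (K : Setoid Ω) (k : Ω → ℕ) (l0 l1 : Ω → G.L) (T0 R : Ω → Fin M)
    (hk : ∀ ω ω', 0 < p ω → 0 < p ω' → K ω ω' → k ω = k ω')
    (hP : ∀ ω, 0 < p ω → G.P (l1 ω) (T0 ω) = G.P (l0 ω) (T0 ω))
    (htube : ∀ ω, 0 < p ω → ∀ i, |G.v (l1 ω) i - G.v (l0 ω) i| ≤ 8 * (1 / 2) ^ k ω)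
    (hang : ∀ ω, 0 < p ω → (1 / 2) ^ k ω ≤ G.δ ∨
      ∃ i, (1 / 2) ^ k ω < |G.v (l1 ω) i - G.v (l0 ω) i|) :
    CE p (Setoid.ker l1)
        (K ⊓ Setoid.ker l0 ⊓ Setoid.ker R ⊓ Setoid.ker (fun ω => G.P (l1 ω) (R ω)))
      ≤ (4 * m + 1) * (Real.log M
          - CE p (Setoid.ker R) (K ⊓ Setoid.ker l0 ⊓ Setoid.ker l1 ⊓ Setoid.ker T0))
        + (21 * m + 4) + Real.log (Real.log M + 3) := by
  classical
  have := lines_finite G
  have : Fintype G.L := Fintype.ofFinite G.L
  have hM := M_pos' G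
  have hM1 : (1 : ℝ) ≤ M := by
    have : 0 < M := by exact_mod_cast hM
    exact_mod_cast this
  -- number of candidates
  set N : Ω → Fin M → ℝ := fun ω r =>
    ((NS G (k ω) (l0 ω) r (G.P (l1 ω) r)).ncard : ℝ) with hN
  have hNpos : ∀ ω, 0 < p ω → 0 < N ω (R ω) := by
    intro ω h0
    have hmem : l1 ω ∈ NS G (k ω) (l0 ω) (R ω) (G.P (l1 ω) (R ω)) :=
      ⟨⟨T0 ω, hP ω h0⟩, htube ω h0, rfl⟩
    have := Set.ncard_pos (Set.toFinite (NS G (k ω) (l0 ω) (R ω) (G.P (l1 ω) (R ω)))) |>.2
      ⟨_, hmem⟩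
    simp only [hN]
    exact_mod_cast this
  -- step 1: l1 is one of the candidates
  have step1 : CE p (Setoid.ker l1)
      (K ⊓ Setoid.ker l0 ⊓ Setoid.ker R ⊓ Setoid.ker (fun ω => G.P (l1 ω) (R ω)))
      ≤ ∑ ω, p ω * Real.log (N ω (R ω)) := by
    have h := gibbs hp
      (K ⊓ Setoid.ker l0 ⊓ Setoid.ker R ⊓ Setoid.ker (fun ω => G.P (l1 ω) (R ω))) l1
      (fun ω a => if a ∈ NS G (k ω) (l0 ω) (R ω) (G.P (l1 ω) (R ω)) then (N ω (R ω))⁻¹ else 0)
      ?_ ?_ ?_ ?_
    · refine h.trans (Finset.sum_le_sum fun ω _ => ?_)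
      rcases (hp.1 ω).eq_or_lt with h0 | h0
      · rw [← h0]; simp
      · have hmem : l1 ω ∈ NS G (k ω) (l0 ω) (R ω) (G.P (l1 ω) (R ω)) :=
          ⟨⟨T0 ω, hP ω h0⟩, htube ω h0, rfl⟩
        rw [if_pos hmem, Real.log_inv, neg_neg]
    · intro ω a
      split_ifs
      · exact inv_nonneg.2 (Nat.cast_nonneg _)
      · exact le_rfl
    · intro ω ω' h0 h0' h
      obtain ⟨⟨⟨h1, h2⟩, h3⟩, h4⟩ := h
      have e1 := hk ω ω' h0 h0' h1
      have e2 : l0 ω = l0 ω' := h2
      have e3 : R ω = R ω' := h3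
      have e4 : G.P (l1 ω) (R ω) = G.P (l1 ω') (R ω') := h4
      funext a
      simp only [hN]
      rw [e4, e1, e2, e3]
    · intro ω F
      rw [← Finset.sum_filter, Finset.sum_const, nsmul_eq_mul, ← div_eq_mul_inv]
      refine div_le_one_of_le₀ ?_ (Nat.cast_nonneg _)
      simp only [hN]
      rw [Set.ncard_eq_toFinset_card']
      have : F.filter (fun a => a ∈ NS G (k ω) (l0 ω) (R ω) (G.P (l1 ω) (R ω)))
          ⊆ (NS G (k ω) (l0 ω) (R ω) (G.P (l1 ω) (R ω))).toFinset := by
        intro a ha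
        rw [Set.mem_toFinset]
        exact (Finset.mem_filter.1 ha).2
      exact_mod_cast Finset.card_le_card this
    · intro ω h0
      have hmem : l1 ω ∈ NS G (k ω) (l0 ω) (R ω) (G.P (l1 ω) (R ω)) :=
        ⟨⟨T0 ω, hP ω h0⟩, htube ω h0, rfl⟩
      rw [if_pos hmem]
      exact inv_pos.2 (hNpos ω h0)
  -- step 2: the height is random
  set r := K ⊓ Setoid.ker l0 ⊓ Setoid.ker l1 ⊓ Setoid.ker T0 with hr
  set H := CE p (Setoid.ker R) r with hH
  set S : ℝ := (8 * 195 ^ (2 * m) * 3 ^ m) * M * (3 + 2 * Real.log (4 * M + 1)) with hS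
  have hlog : 0 ≤ Real.log (4 * M + 1) := Real.log_nonneg (by linarith)
  have hSpos : 0 < S := by
    rw [hS]
    have : (0 : ℝ) < 3 + 2 * Real.log (4 * M + 1) := by linarith
    positivity
  have step2 : ∑ ω, p ω * Real.log (N ω (R ω) * dst (R ω) (T0 ω) ^ (2 * m)) ≤ Real.log S - H := by
    have h := gibbs hp r R
      (fun ω t => if 0 < p ω then N ω t * dst t (T0 ω) ^ (2 * m) / S else 0) ?_ ?_ ?_ ?_
    · have e1 : ∑ ω, p ω * (-Real.log (if 0 < p ω then
            N ω (R ω) * dst (R ω) (T0 ω) ^ (2 * m) / S else 0))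
          = Real.log S - ∑ ω, p ω * Real.log (N ω (R ω) * dst (R ω) (T0 ω) ^ (2 * m)) := by
        have : ∀ ω, p ω * (-Real.log (if 0 < p ω then
            N ω (R ω) * dst (R ω) (T0 ω) ^ (2 * m) / S else 0))
            = p ω * Real.log S - p ω * Real.log (N ω (R ω) * dst (R ω) (T0 ω) ^ (2 * m)) := by
          intro ω
          rcases (hp.1 ω).eq_or_lt with h0 | h0
          · rw [← h0]; simp
          · have hd := dst_pos (R ω) (T0 ω)
            have hn := hNpos ω h0
            rw [if_pos h0, Real.log_div (by positivity) hSpos.ne']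
            ring
        rw [Finset.sum_congr rfl fun ω _ => this ω, Finset.sum_sub_distrib, ← Finset.sum_mul,
          hp.2, one_mul]
      rw [e1] at h
      have e2 : H = Ent p (Setoid.ker R ⊓ r) - Ent p r := rfl
      linarith
    · intro ω t
      split_ifs
      · have hd := dst_pos t (T0 ω)
        have : 0 ≤ N ω t := Nat.cast_nonneg _
        positivity
      · exact le_rfl
    · intro ω ω' h0 h0' h
      obtain ⟨⟨⟨h1, h2⟩, h3⟩, h4⟩ := h
      have e1 := hk ω ω' h0 h0' h1
      have e2 : l0 ω = l0 ω' := h2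
      have e3 : l1 ω = l1 ω' := h3
      have e4 : T0 ω = T0 ω' := h4
      funext t
      simp only [hN]
      rw [if_pos h0, if_pos h0', e1, e2, e3, e4]
    · intro ω F
      by_cases h0 : 0 < p ω
      · simp only [if_pos h0]
        rw [← Finset.sum_div, div_le_one hSpos]
        have hc := plane_count G (hP ω h0) (htube ω h0) (hang ω h0)
        refine le_trans ?_ hc
        refine Finset.sum_le_sum_of_subset_of_nonneg (Finset.subset_univ F) fun t _ _ => ?_
        have hd := dst_pos t (T0 ω)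
        have : 0 ≤ N ω t := Nat.cast_nonneg _
        positivity
      · simp [if_neg h0]
    · intro ω h0
      have hd := dst_pos (R ω) (T0 ω)
      have hn := hNpos ω h0
      simp only [if_pos h0]
      positivity
  -- step 3: the height is far from T0
  have step3 := close hp r T0 R (fun ω ω' _ _ h => h.2)
  have step4 : ∑ ω, p ω * Real.log (N ω (R ω))
      = ∑ ω, p ω * Real.log (N ω (R ω) * dst (R ω) (T0 ω) ^ (2 * m))
        + 2 * m * ∑ ω, p ω * Real.log (1 / dst (R ω) (T0 ω)) := by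
    rw [Finset.mul_sum, ← Finset.sum_add_distrib]
    refine Finset.sum_congr rfl fun ω _ => ?_
    rcases (hp.1 ω).eq_or_lt with h0 | h0
    · rw [← h0]; simp
    · have hd := dst_pos (R ω) (T0 ω)
      rw [Real.log_mul (hNpos ω h0).ne' (by positivity), Real.log_pow, Real.log_div one_ne_zero
        hd.ne', Real.log_one]
      push_cast
      ring
  have hH' : H = Ent p (Setoid.ker R ⊓ r) - Ent p r := rfl
  have hlS : Real.log S = Real.log (8 * 195 ^ (2 * m) * 3 ^ m) + Real.log M
      + Real.log (3 + 2 * Real.log (4 * M + 1)) := by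
    rw [hS, Real.log_mul (by positivity) (by linarith), Real.log_mul (by positivity) hM.ne']
  have hc1 := log_const_bound m
  have hc2 := loglog_bound hM1
  have hm : (0 : ℝ) ≤ m := Nat.cast_nonneg m
  rw [← hH'] at step3
  have step5 : 2 * (m : ℝ) * ∑ ω, p ω * Real.log (1 / dst (R ω) (T0 ω))
      ≤ 2 * m * (2 * (Real.log M + Real.log 5 - H)) :=
    mul_le_mul_of_nonneg_left step3 (by linarith)
  calc CE p (Setoid.ker l1)
        (K ⊓ Setoid.ker l0 ⊓ Setoid.ker R ⊓ Setoid.ker (fun ω => G.P (l1 ω) (R ω)))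
      ≤ ∑ ω, p ω * Real.log (N ω (R ω)) := step1
    _ ≤ (Real.log S - H) + 2 * m * (2 * (Real.log M + Real.log 5 - H)) := by
        rw [step4]; linarith
    _ ≤ _ := by
        rw [hlS]
        nlinarith

end Pool.Agent.Helper68.Kak
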